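import Pool.Agent.helper17.EXT.Spec

set_option autoImplicit false

open Finset

namespace Pool.Agent.EXT

open Pool.Agent.EXC

theorem FXF (hESF : ESF_stmt) (hGFX : GFX_stmt) (hUNF : UNF_stmt) (hNKF : NKF_stmt) : FXF_stmt := by
  intro K _ τ hτ
  have hES := (hESF K τ hτ).2
  have hGF := (hGFX K τ hτ).2
  have hU := hUNF K τ hτ
  have hN := hNKF K τ hτ
  constructor
  · intro x hx
    ext1 g
    have key : (g : Equiv.Perm (LT τ))⁻¹ * ((x g : GF τ) : Equiv.Perm (LT τ)) = 1 := by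
      apply hN _ ((GF τ).mul_mem ((GF τ).inv_mem g.2) (x g).2)
      intro v hv
      obtain ⟨hX1, -, -, -, hconj⟩ := hGF v hv
      have hga := (hES v hv).2.2.2.1
      obtain ⟨k, hk, hk1⟩ := hX1 1 (map_one τ)
      have h0 := (hx v hv (x.symm ⟨k, hk⟩)).2
      rw [MulEquiv.apply_symm_apply] at h0
      obtain ⟨s, hs1, hs⟩ := h0 ⟨1, map_one τ, hk1⟩
      obtain ⟨γ, hγ, hγv⟩ := g.2
      obtain ⟨γ', hγ', hγv'⟩ := (x g).2
      have h1 := hconj g.1 g.2 γ hγ hγv s _ hs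
      obtain ⟨t, ht1, ht⟩ := (hx (γ v) (hga γ hγ) (g * x.symm ⟨k, hk⟩ * g⁻¹)).1 ⟨s, hs1, by simpa using h1⟩
      rw [map_mul, map_mul, map_inv, MulEquiv.apply_symm_apply] at ht
      have h2 := hconj (x g).1 (x g).2 γ' hγ' hγv' 1 _ hk1
      have h3 := hU (γ' v) (γ v) t _ (hga _ hγ') (hga _ hγ) h2 (by simpa using ht)
      refine ⟨t, ?_⟩
      apply γ.injective
      have h4 : γ (((g : Equiv.Perm (LT τ))⁻¹ * ((x g : GF τ) : Equiv.Perm (LT τ))) v : LT τ) =
          (((x g : GF τ) : Equiv.Perm (LT τ)) v : LT τ) := by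
        rw [← hγv, Equiv.Perm.mul_apply]
        congr 1
        exact (g : Equiv.Perm (LT τ)).apply_symm_apply _
      rw [h4, hγv', h3, map_smul]
    have h4 : ((x g : GF τ) : Equiv.Perm (LT τ)) = g := by
      rw [inv_mul_eq_one] at key
      exact key.symm
    exact Subtype.ext h4
  · intro z hz
    have key : (z : Equiv.Perm (LT τ)) = 1 := by
      apply hN _ z.2
      intro v hv
      obtain ⟨hX1, -, -, -, hconj⟩ := hGF v hv
      have hga := (hES v hv).2.2.2.1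
      obtain ⟨k, hk, hk1⟩ := hX1 1 (map_one τ)
      obtain ⟨γ, hγ, hγv⟩ := z.2
      have h2 := hconj z.1 z.2 γ hγ hγv 1 _ hk1
      have h3 : z.1 * k * z.1⁻¹ = k := by
        have := congrArg Subtype.val (hz ⟨k, hk⟩)
        simp only [Subgroup.coe_mul] at this
        rw [this, mul_assoc, mul_inv_cancel, mul_one]
      rw [h3] at h2
      exact ⟨1, (hγv v).trans (hU (γ v) v 1 k (hga _ hγ) hv h2 hk1)⟩
    exact Subtype.ext key

end Pool.Agent.EXT
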